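import Pool.Agent.H140.HK.Seq

namespace Pool.Agent.H140.HK

open Matrix Finset

lemma mod_eq_of_dvd {q : ℕ} {x : ℤ} {a b : ℕ} (h1 : (q : ℤ) ∣ x + a) (h2 : (q : ℤ) ∣ x + b) :
    a % q = b % q := by
  have h : (q : ℤ) ∣ (b : ℤ) - a := by
    have := dvd_sub h2 h1
    have e : x + (b : ℤ) - (x + a) = (b : ℤ) - a := by ring
    rwa [e] at this
  exact (Nat.modEq_iff_dvd).2 h

lemma div_inj {q a b : ℕ} (h1 : a / q = b / q) (h2 : a % q = b % q) : a = b := by
  rw [← Nat.div_add_mod a q, ← Nat.div_add_mod b q, h1, h2]

/-- If every element of `S` is determined by a number below `m`, then `q * card S` is small. -/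
lemma card_bound {S : Type*} [Fintype S] (κ : S → ℕ) (hκ : Function.Injective κ) (q m n : ℕ)
    (h : ∀ s, κ s < m) (hm : q * m ≤ n) : q * Fintype.card S ≤ n := by
  have : Fintype.card S ≤ m := by
    have := Fintype.card_le_of_injective (fun s => (⟨κ s, h s⟩ : Fin m))
      (fun a b hab => hκ (by simpa using hab))
    simpa using this
  exact le_trans (Nat.mul_le_mul_left _ this) hm

lemma bmat_apply_last (n : ℕ) (p e δ : ℤ) (v : ℤ → ℤ) (i j : Fin (n + 1)) (hj : (j : ℕ) = n) :
    bmat n p e δ v i j = e * δ ^ (i : ℕ) := by simp [bmat, hj]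

lemma bmat_apply_ne (n : ℕ) (p e δ : ℤ) (v : ℤ → ℤ) (i j : Fin (n + 1)) (hj : (j : ℕ) ≠ n) :
    bmat n p e δ v i j = v (p + (i : ℕ) + (j : ℕ)) := by simp [bmat, hj]

lemma vq_ne_zero {q N : ℤ} (h : vq q N ≠ 0) : q ∣ N := by
  by_contra hn
  exact h (by unfold vq; rw [if_neg hn])

lemma pow_mod_even {δ : ℤ} (hδ : δ = 1 ∨ δ = -1) {q : ℕ} (hq : Even q) (i : ℕ) :
    δ ^ i = δ ^ (i % q) := by
  have h1 : δ ^ q = 1 := by
    rcases hδ with rfl | rfl
    · simp
    · exact hq.neg_one_pow
  conv_lhs => rw [← Nat.div_add_mod i q, pow_add, pow_mul, h1, one_pow, one_mul]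

lemma unit_pow {δ : ℤ} (hδ : δ = 1 ∨ δ = -1) (i : ℕ) : δ ^ i = 1 ∨ δ ^ i = -1 := by
  rcases hδ with rfl | rfl
  · left; simp
  · exact neg_one_pow_eq_or ℤ i

lemma bmat_q (q : ℕ) (hq : 0 < q) (hqe : Even q) (n : ℕ) (p e δ : ℤ)
    (he : e = 1 ∨ e = -1) (hδ : δ = 1 ∨ δ = -1)
    (H : ∀ k, q * k ≤ n + q - 1 → ∀ p' e' : ℤ, (e' = 1 ∨ e' = -1) →
      Sm (hmat k p' w).det ∧ Sm (bmat k p' e' 1 w).det) :
    Sm (bmat n p e δ (vq q)).det := by
  classical
  have hq0 : (q : ℤ) ≠ 0 := by exact_mod_cast hq.ne'
  apply Sm_of_blocks
  intro σ hσ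
  set A := bmat n p e δ (vq q) with hA
  set L : Fin (n + 1) := Fin.last n with hL
  set cs : ℕ := (σ L : ℕ) % q with hcs
  have hcsq : cs < q := Nat.mod_lt _ hq
  let b : Fin (n + 1) → ℕ := fun j => if (σ j : ℕ) % q = cs then q else (σ j : ℕ) % q
  have hbL : b L = q := by simp [b, hcs]
  have hble : ∀ j, b j ≤ q := by
    intro j
    simp only [b]
    split_ifs
    · exact le_refl _
    · exact (Nat.mod_lt _ hq).le
  have hneL : ∀ j : Fin (n + 1), j ≠ L → (j : ℕ) ≠ n := by
    intro j hj h
    exact hj (Fin.ext (by simpa [hL] using h))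
  have hltn : ∀ j : Fin (n + 1), j ≠ L → (j : ℕ) < n := by
    intro j hj
    have := hneL j hj
    have := j.2
    omega
  have hdvd : ∀ i j, j ≠ L → A (σ i) j ≠ 0 → (q : ℤ) ∣ p + ((σ i : ℕ) : ℤ) + ((j : ℕ) : ℤ) := by
    intro i j hj h
    rw [hA, bmat_apply_ne _ _ _ _ _ _ _ (hneL j hj)] at h
    exact vq_ne_zero h
  have hblock : ∀ i j, j ≠ L → A (σ i) j ≠ 0 → (σ i : ℕ) % q = (σ j : ℕ) % q := by
    intro i j hj h
    have d1 := hdvd i j hj h
    have d2 := hdvd j j hj (hσ j)
    apply mod_eq_of_dvd (x := p + (j : ℕ))
    · convert d1 using 1; ring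
    · convert d2 using 1; ring
  refine ⟨b, ?_, ?_⟩
  · intro i j hij
    rw [Matrix.submatrix_apply, id]
    by_contra hne
    by_cases hj : j = L
    · rw [hj, hbL] at hij
      exact absurd (hble i) (not_le.2 hij)
    · have := hblock i j hj hne
      have : b i = b j := by simp only [b, this]
      omega
  · intro a
    -- common facts
    set S := {j : Fin (n + 1) // b j = a} with hS
    by_cases haq : a = q
    · -- top block
      have hSc : ∀ s : S, (σ s.1 : ℕ) % q = cs := by
        intro s
        by_contra hne
        have h1 : b s.1 = a := s.2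
        have h2 : b s.1 = (σ s.1 : ℕ) % q := by
          simp only [b]
          rw [if_neg hne]
        have := Nat.mod_lt (σ s.1 : ℕ) hq
        omega
      have hmem : ∀ j : Fin (n + 1), (σ j : ℕ) % q = cs → b j = a := by
        intro j hj
        simp only [b]
        rw [if_pos hj, haq]
      let sL : S := ⟨L, hmem L hcs.symm⟩
      set J : ℕ := ((-(p + cs)) % q).toNat with hJ
      have hJq : J < q := by
        have h1 := Int.emod_nonneg (-(p + cs)) hq0
        have h2 := Int.emod_lt_of_pos (-(p + cs)) (by exact_mod_cast hq : (0 : ℤ) < q)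
        omega
      have hJd : (q : ℤ) ∣ p + cs + J := by
        have h1 := Int.emod_nonneg (-(p + cs)) hq0
        have h3 : (J : ℤ) = (-(p + cs)) % q := by rw [hJ]; omega
        rw [h3]
        have h4 := Int.emod_add_mul_ediv (-(p + cs)) q
        refine ⟨-((-(p + cs)) / q), ?_⟩
        linarith
      obtain ⟨p', hp'⟩ := hJd
      have hσs : ∀ s : S, (σ s.1 : ℕ) = q * ((σ s.1 : ℕ) / q) + cs := by
        intro s
        have := Nat.div_add_mod (σ s.1 : ℕ) q
        rw [hSc s] at this
        exact this.symm
      have hsJ : ∀ s : S, s.1 ≠ L → (s.1 : ℕ) % q = J := by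
        intro s hs
        have d := hdvd s.1 s.1 hs (hσ s.1)
        have e1 : (s.1 : ℕ) % q = J % q := by
          apply mod_eq_of_dvd (x := p + cs)
          · have h1 := hσs s
            have h2 : ((σ s.1 : ℕ) : ℤ) = q * (((σ s.1 : ℕ) / q : ℕ) : ℤ) + cs := by
              exact_mod_cast h1
            rw [h2] at d
            have h3 := dvd_sub d (dvd_mul_right (q : ℤ) (((σ s.1 : ℕ) / q : ℕ) : ℤ))
            have e5 : p + cs + ((s.1 : ℕ) : ℤ) = p + ((q : ℤ) * (((σ s.1 : ℕ) / q : ℕ) : ℤ) + cs) +
                ((s.1 : ℕ) : ℤ) - (q : ℤ) * (((σ s.1 : ℕ) / q : ℕ) : ℤ) := by ring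
            rw [e5]
            exact h3
          · exact ⟨p', hp'⟩
        rw [e1, Nat.mod_eq_of_lt hJq]
      have hsd : ∀ s : S, s.1 ≠ L → (s.1 : ℕ) = q * ((s.1 : ℕ) / q) + J := by
        intro s hs
        have := Nat.div_add_mod (s.1 : ℕ) q
        rw [hsJ s hs] at this
        exact this.symm
      set K := Fintype.card S - 1 with hK
      have hcard : Fintype.card S = K + 1 := by
        have : 0 < Fintype.card S := Fintype.card_pos_iff.2 ⟨sL⟩
        omega
      -- ordinary columns have small index
      have hsK : ∀ s : S, s.1 ≠ L → (s.1 : ℕ) / q < K := by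
        intro s hs
        have hex : ∀ t ≤ (s.1 : ℕ) / q, ∃ s' : S, s'.1 ≠ L ∧ (s'.1 : ℕ) = q * t + J := by
          intro t ht
          have h1 : q * t + J ≤ s.1 := by
            rw [hsd s hs]
            have := Nat.mul_le_mul_left q ht
            omega
          have h2 : q * t + J < n := lt_of_le_of_lt h1 (hltn s.1 hs)
          let j : Fin (n + 1) := ⟨q * t + J, by omega⟩
          have hj : j ≠ L := by
            intro hjL
            have : (j : ℕ) = n := by rw [hjL]; simp [hL]
            simp only [j] at this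
            omega
          have d := hdvd j j hj (hσ j)
          have e1 : (σ j : ℕ) % q = cs % q := by
            apply mod_eq_of_dvd (x := p + J)
            · have h3 : ((j : ℕ) : ℤ) = q * (t : ℤ) + J := by simp only [j]; push_cast; ring
              rw [h3] at d
              have h4 := dvd_sub d (dvd_mul_right (q : ℤ) (t : ℤ))
              have e5 : p + J + ((σ j : ℕ) : ℤ) = p + ((σ j : ℕ) : ℤ) + ((q : ℤ) * (t : ℤ) + J) -
                  (q : ℤ) * (t : ℤ) := by ring
              rw [e5]
              exact h4
            · refine ⟨p', ?_⟩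
              rw [← hp']; ring
          rw [Nat.mod_eq_of_lt hcsq] at e1
          exact ⟨⟨j, hmem j e1⟩, hj, rfl⟩
        choose g hg1 hg2 using hex
        have hinj : Function.Injective (fun o : Option (Fin ((s.1 : ℕ) / q + 1)) =>
            (o.elim sL (fun t => g t (Nat.lt_succ_iff.1 t.2)) : S)) := by
          intro o1 o2 ho
          rcases o1 with _ | t1 <;> rcases o2 with _ | t2
          · rfl
          · exfalso
            simp only [Option.elim] at ho
            exact hg1 _ _ (congrArg Subtype.val ho).symm
          · exfalso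
            simp only [Option.elim] at ho
            exact hg1 _ _ (congrArg Subtype.val ho)
          · simp only [Option.elim] at ho
            have h1 := hg2 t1 (Nat.lt_succ_iff.1 t1.2)
            have h2 := hg2 t2 (Nat.lt_succ_iff.1 t2.2)
            rw [ho, h2] at h1
            have h3 : q * (t2 : ℕ) = q * (t1 : ℕ) := by omega
            have h4 := Nat.eq_of_mul_eq_mul_left hq h3
            rw [Fin.ext h4]
        have := Fintype.card_le_of_injective _ hinj
        rw [Fintype.card_option, Fintype.card_fin] at this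
        omega
      -- enumerations
      let ρ : S → ℕ := fun s => (σ s.1 : ℕ) / q
      let κ : S → ℕ := fun s => if s.1 = L then K else (s.1 : ℕ) / q
      have hρi : Function.Injective ρ := by
        intro s s' h
        have h1 : (σ s.1 : ℕ) = σ s'.1 := div_inj h (by rw [hSc, hSc])
        exact Subtype.ext (σ.injective (Fin.ext h1))
      have hρd : ∀ s, ∀ t < ρ s, ∃ s', ρ s' = t := by
        intro s t ht
        have h1 : q * t + cs < σ s.1 := by
          rw [hσs s]
          have := Nat.mul_lt_mul_of_pos_left ht hq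
          simp only [ρ] at this
          omega
        let i : Fin (n + 1) := ⟨q * t + cs, lt_trans h1 (σ s.1).2⟩
        have h2 : (σ (σ.symm i) : ℕ) % q = cs := by
          rw [Equiv.apply_symm_apply]
          simp only [i]
          rw [Nat.mul_add_mod, Nat.mod_eq_of_lt hcsq]
        refine ⟨⟨σ.symm i, hmem _ h2⟩, ?_⟩
        simp only [ρ, Equiv.apply_symm_apply, i]
        rw [Nat.mul_add_div hq, Nat.div_eq_of_lt hcsq, add_zero]
      have hρlt := enum_lt ρ hρi hρd
      have hκlt : ∀ s, κ s < Fintype.card S := by
        intro s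
        simp only [κ]
        split_ifs with h
        · omega
        · have := hsK s h
          omega
      have hκi : Function.Injective κ := by
        intro s s' h
        simp only [κ] at h
        split_ifs at h with h1 h2 h2
        · exact Subtype.ext (h1.trans h2.symm)
        · have := hsK s' h2; omega
        · have := hsK s h1; omega
        · exact Subtype.ext (Fin.ext (div_inj h (by rw [hsJ s h1, hsJ s' h2])))
      set e' := e * δ ^ cs with he'
      have he'u : e' = 1 ∨ e' = -1 := by
        rcases he with h | h <;> rcases unit_pow hδ cs with h' | h' <;> rw [he', h, h'] <;> simp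
      have hmain : (A.submatrix σ id).toSquareBlock b a =
          Matrix.of fun s s' : S =>
            (fun t' t : ℕ => if t = K then e' * 1 ^ t' else w (p' + t' + t)) (ρ s) (κ s') := by
        ext s s'
        rw [Matrix.toSquareBlock_def, Matrix.of_apply, Matrix.of_apply, Matrix.submatrix_apply, id]
        by_cases hs' : s'.1 = L
        · have h1 : (s'.1 : ℕ) = n := by rw [hs']; simp [hL]
          rw [hA, bmat_apply_last _ _ _ _ _ _ _ h1]
          simp only [κ, if_pos hs', if_true, he', one_pow, mul_one]
          rw [pow_mod_even hδ hqe, hSc]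
        · rw [hA, bmat_apply_ne _ _ _ _ _ _ _ (hneL _ hs')]
          have h2 : κ s' = (s'.1 : ℕ) / q := by simp only [κ, if_neg hs']
          have h3 : κ s' ≠ K := by rw [h2]; exact (hsK s' hs').ne
          simp only [if_neg h3]
          have h4 : p + ((σ s.1 : ℕ) : ℤ) + ((s'.1 : ℕ) : ℤ) = q * (p' + ρ s + κ s') := by
            have e1 : ((σ s.1 : ℕ) : ℤ) = q * (((σ s.1 : ℕ) / q : ℕ) : ℤ) + cs := by
              exact_mod_cast hσs s
            have e2 : ((s'.1 : ℕ) : ℤ) = q * (((s'.1 : ℕ) / q : ℕ) : ℤ) + J := by
              exact_mod_cast hsd s' hs'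
            rw [e1, e2, h2]
            simp only [ρ]
            linear_combination hp'
          rw [h4, vq_mul _ hq0]
      rw [hmain]
      refine Sm_of_enum (fun t' t : ℕ => if t = K then e' * 1 ^ t' else w (p' + t' + t))
        ρ κ hρi hρlt hκi hκlt ?_
      have hKb : q * K ≤ n + q - 1 := by
        have h1 : Fintype.card S ≤ (n + q - 1) / q + 1 := by
          have := Fintype.card_le_of_injective
            (fun s : S => (if h : s.1 = L then none else
              some (⟨(s.1 : ℕ) / q, by
                have h3 := hltn s.1 h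
                have h5 : ((s.1 : ℕ) + q) / q ≤ (n + q - 1) / q := Nat.div_le_div_right (by omega)
                rw [Nat.add_div_right _ hq] at h5
                omega⟩ : Fin ((n + q - 1) / q)) : Option (Fin ((n + q - 1) / q))))
            (by
              intro s s' h
              simp only at h
              split_ifs at h with h1 h2 h2
              · exact Subtype.ext (h1.trans h2.symm)
              · have h6 := Option.some.inj h
                have h7 : (s.1 : ℕ) / q = (s'.1 : ℕ) / q := by simpa using h6
                exact Subtype.ext (Fin.ext (div_inj h7 (by rw [hsJ s h1, hsJ s' h2]))))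
          rw [Fintype.card_option, Fintype.card_fin] at this
          exact this
        have h2 : K ≤ (n + q - 1) / q := by omega
        exact le_trans (Nat.mul_le_mul_left _ h2) (Nat.mul_div_le _ _)
      have hfin := (H K hKb p' e' he'u).2
      have hgen : ∀ m, m = K + 1 → Sm (Matrix.of fun i j : Fin m =>
          (fun t' t : ℕ => if t = K then e' * 1 ^ t' else w (p' + t' + t)) i j).det := by
        rintro m rfl
        exact hfin
      exact hgen _ hcard
    · -- ordinary block
      have hSn : ∀ s : S, (σ s.1 : ℕ) % q ≠ cs ∧ (σ s.1 : ℕ) % q = a := by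
        intro s
        have h1 := s.2
        simp only [b] at h1
        by_cases hne : (σ s.1 : ℕ) % q = cs
        · rw [if_pos hne] at h1
          exact absurd h1.symm haq
        · rw [if_neg hne] at h1
          exact ⟨hne, h1⟩
      have hSL : ∀ s : S, s.1 ≠ L := by
        intro s hs
        apply (hSn s).1
        rw [hs]
      set J : ℕ := ((-(p + a)) % q).toNat with hJ
      have hJq : J < q := by
        have h1 := Int.emod_nonneg (-(p + a)) hq0
        have h2 := Int.emod_lt_of_pos (-(p + a)) (by exact_mod_cast hq : (0 : ℤ) < q)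
        omega
      have hJd : (q : ℤ) ∣ p + a + J := by
        have h1 := Int.emod_nonneg (-(p + a)) hq0
        have h3 : (J : ℤ) = (-(p + a)) % q := by rw [hJ]; omega
        rw [h3]
        have h4 := Int.emod_add_mul_ediv (-(p + a)) q
        refine ⟨-((-(p + a)) / q), ?_⟩
        linarith
      obtain ⟨p', hp'⟩ := hJd
      have hσs : ∀ s : S, (σ s.1 : ℕ) = q * ((σ s.1 : ℕ) / q) + a := by
        intro s
        have := Nat.div_add_mod (σ s.1 : ℕ) q
        rw [(hSn s).2] at this
        exact this.symm
      have hsJ : ∀ s : S, (s.1 : ℕ) % q = J := by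
        intro s
        have d := hdvd s.1 s.1 (hSL s) (hσ s.1)
        have e1 : (s.1 : ℕ) % q = J % q := by
          apply mod_eq_of_dvd (x := p + a)
          · have h1 := hσs s
            have h2 : ((σ s.1 : ℕ) : ℤ) = q * (((σ s.1 : ℕ) / q : ℕ) : ℤ) + a := by
              exact_mod_cast h1
            rw [h2] at d
            have h3 := dvd_sub d (dvd_mul_right (q : ℤ) (((σ s.1 : ℕ) / q : ℕ) : ℤ))
            have e5 : p + a + ((s.1 : ℕ) : ℤ) = p + ((q : ℤ) * (((σ s.1 : ℕ) / q : ℕ) : ℤ) + a) +
                ((s.1 : ℕ) : ℤ) - (q : ℤ) * (((σ s.1 : ℕ) / q : ℕ) : ℤ) := by ring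
            rw [e5]
            exact h3
          · exact ⟨p', hp'⟩
        rw [e1, Nat.mod_eq_of_lt hJq]
      have hsd : ∀ s : S, (s.1 : ℕ) = q * ((s.1 : ℕ) / q) + J := by
        intro s
        have := Nat.div_add_mod (s.1 : ℕ) q
        rw [hsJ s] at this
        exact this.symm
      let ρ : S → ℕ := fun s => (σ s.1 : ℕ) / q
      let κ : S → ℕ := fun s => (s.1 : ℕ) / q
      have hρi : Function.Injective ρ := by
        intro s s' h
        have h1 : (σ s.1 : ℕ) = σ s'.1 := div_inj h (by rw [(hSn s).2, (hSn s').2])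
        exact Subtype.ext (σ.injective (Fin.ext h1))
      have hρd : ∀ s, ∀ t < ρ s, ∃ s', ρ s' = t := by
        intro s t ht
        have haq' : a < q := by
          rw [← (hSn s).2]; exact Nat.mod_lt _ hq
        have hacs : a ≠ cs := by
          rw [← (hSn s).2]; exact (hSn s).1
        have h1 : q * t + a < σ s.1 := by
          rw [hσs s]
          have := Nat.mul_lt_mul_of_pos_left ht hq
          simp only [ρ] at this
          omega
        let i : Fin (n + 1) := ⟨q * t + a, lt_trans h1 (σ s.1).2⟩
        have h2 : (σ (σ.symm i) : ℕ) % q = a := by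
          rw [Equiv.apply_symm_apply]
          simp only [i]
          rw [Nat.mul_add_mod, Nat.mod_eq_of_lt haq']
        have h3 : b (σ.symm i) = a := by
          simp only [b]
          rw [h2, if_neg hacs]
        refine ⟨⟨σ.symm i, h3⟩, ?_⟩
        simp only [ρ, Equiv.apply_symm_apply, i]
        rw [Nat.mul_add_div hq, Nat.div_eq_of_lt haq', add_zero]
      have hρlt := enum_lt ρ hρi hρd
      have hκi : Function.Injective κ := by
        intro s s' h
        exact Subtype.ext (Fin.ext (div_inj h (by rw [hsJ s, hsJ s'])))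
      have hκd : ∀ s, ∀ t < κ s, ∃ s', κ s' = t := by
        intro s t ht
        have haq' : a < q := by
          rw [← (hSn s).2]; exact Nat.mod_lt _ hq
        have hacs : a ≠ cs := by
          rw [← (hSn s).2]; exact (hSn s).1
        have h1 : q * t + J < s.1 := by
          rw [hsd s]
          have := Nat.mul_lt_mul_of_pos_left ht hq
          simp only [κ] at this
          omega
        let j : Fin (n + 1) := ⟨q * t + J, lt_trans h1 s.1.2⟩
        have hj : j ≠ L := by
          intro hjL
          have h5 : (j : ℕ) = n := by rw [hjL]; simp [hL]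
          simp only [j] at h5
          have := s.1.2
          omega
        have d := hdvd j j hj (hσ j)
        have e1 : (σ j : ℕ) % q = a % q := by
          apply mod_eq_of_dvd (x := p + J)
          · have h3 : ((j : ℕ) : ℤ) = q * (t : ℤ) + J := by simp only [j]; push_cast; ring
            rw [h3] at d
            have h4 := dvd_sub d (dvd_mul_right (q : ℤ) (t : ℤ))
            have e5 : p + J + ((σ j : ℕ) : ℤ) = p + ((σ j : ℕ) : ℤ) + ((q : ℤ) * (t : ℤ) + J) -
                (q : ℤ) * (t : ℤ) := by ring
            rw [e5]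
            exact h4
          · refine ⟨p', ?_⟩
            rw [← hp']; ring
        rw [Nat.mod_eq_of_lt haq'] at e1
        have h3 : b j = a := by
          simp only [b]
          rw [e1, if_neg hacs]
        refine ⟨⟨j, h3⟩, ?_⟩
        simp only [κ, j]
        rw [Nat.mul_add_div hq, Nat.div_eq_of_lt hJq, add_zero]
      have hκlt := enum_lt κ hκi hκd
      have hmain : (A.submatrix σ id).toSquareBlock b a =
          Matrix.of fun s s' : S => (fun t' t : ℕ => w (p' + t' + t)) (ρ s) (κ s') := by
        ext s s'
        rw [Matrix.toSquareBlock_def, Matrix.of_apply, Matrix.of_apply, Matrix.submatrix_apply, id,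
          hA, bmat_apply_ne _ _ _ _ _ _ _ (hneL _ (hSL s'))]
        have h4 : p + ((σ s.1 : ℕ) : ℤ) + ((s'.1 : ℕ) : ℤ) = q * (p' + ρ s + κ s') := by
          have e1 : ((σ s.1 : ℕ) : ℤ) = q * (((σ s.1 : ℕ) / q : ℕ) : ℤ) + a := by
            exact_mod_cast hσs s
          have e2 : ((s'.1 : ℕ) : ℤ) = q * (((s'.1 : ℕ) / q : ℕ) : ℤ) + J := by
            exact_mod_cast hsd s'
          rw [e1, e2]
          simp only [ρ, κ]
          linear_combination hp'
        rw [h4, vq_mul _ hq0]
      rw [hmain]
      refine Sm_of_enum (fun t' t : ℕ => w (p' + t' + t)) ρ κ hρi hρlt hκi hκlt ?_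
      have hKb : q * Fintype.card S ≤ n + q - 1 := by
        apply card_bound κ hκi q ((n + q - 1) / q) _ _ (Nat.mul_div_le _ _)
        intro s
        have h3 := hltn s.1 (hSL s)
        have h5 : ((s.1 : ℕ) + q) / q ≤ (n + q - 1) / q := Nat.div_le_div_right (by omega)
        rw [Nat.add_div_right _ hq] at h5
        simp only [κ]
        omega
      exact (H _ hKb p' 1 (Or.inl rfl)).1

end Pool.Agent.H140.HK
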