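import Mathlib

namespace Pool.Agent.H140.HK

open Matrix Finset

/-- The integer `x` is `-1`, `0` or `1`. -/
def Sm (x : ℤ) : Prop := x = 0 ∨ x = 1 ∨ x = -1

lemma Sm.mul {x y : ℤ} (hx : Sm x) (hy : Sm y) : Sm (x * y) := by
  rcases hx with rfl | rfl | rfl <;> rcases hy with rfl | rfl | rfl <;> simp [Sm]

lemma Sm_one : Sm 1 := Or.inr (Or.inl rfl)
lemma Sm_zero : Sm 0 := Or.inl rfl

lemma Sm_prod {ι : Type*} (s : Finset ι) (f : ι → ℤ) (h : ∀ i ∈ s, Sm (f i)) :
    Sm (∏ i ∈ s, f i) :=
  Finset.prod_induction f Sm (fun _ _ => Sm.mul) Sm_one h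

lemma Sm_of_unit_mul {u x : ℤ} (hu : u = 1 ∨ u = -1) (h : Sm (u * x)) : Sm x := by
  rcases hu with rfl | rfl
  · simpa using h
  · rcases h with h | h | h
    · left; linarith
    · right; right; linarith
    · right; left; linarith

lemma Sm_unit_mul {u x : ℤ} (hu : u = 1 ∨ u = -1) (h : Sm x) : Sm (u * x) := by
  rcases hu with rfl | rfl
  · simpa using h
  · exact Sm.mul (Or.inr (Or.inr rfl)) h

lemma unit_cases (u : ℤˣ) : (u : ℤ) = 1 ∨ (u : ℤ) = -1 := by
  rcases Int.units_eq_one_or u with rfl | rfl <;> simp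

/-- Transport of the determinant along two enumerations. -/
lemma Sm_submatrix {S : Type*} [Fintype S] [DecidableEq S] {k : ℕ} (H : Matrix (Fin k) (Fin k) ℤ)
    (e f : S ≃ Fin k) (h : Sm H.det) : Sm (H.submatrix e f).det := by
  have h1 : H.submatrix e f = ((H.submatrix id (e.symm.trans f)).submatrix e e) := by
    ext i j; simp
  rw [h1, Matrix.det_submatrix_equiv_self, Matrix.det_permute']
  exact Sm_unit_mul (unit_cases _) h

lemma enum_lt {S : Type*} [Fintype S] (ρ : S → ℕ)
    (hi : Function.Injective ρ) (hd : ∀ s, ∀ t < ρ s, ∃ s', ρ s' = t) (s : S) :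
    ρ s < Fintype.card S := by
  classical
  have h1 : Finset.range (ρ s + 1) ⊆ Finset.univ.image ρ := by
    intro t ht
    rw [Finset.mem_range] at ht
    rw [Finset.mem_image]
    rcases Nat.lt_or_ge t (ρ s) with h | h
    · obtain ⟨s', hs'⟩ := hd s t h
      exact ⟨s', Finset.mem_univ _, hs'⟩
    · exact ⟨s, Finset.mem_univ _, by omega⟩
  have h2 := Finset.card_le_card h1
  rw [Finset.card_range, Finset.card_image_of_injective _ hi, Finset.card_univ] at h2
  omega

/-- An injective function with values below the cardinality is an enumeration. -/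
noncomputable def enumEquiv {S : Type*} [Fintype S] (ρ : S → ℕ)
    (hi : Function.Injective ρ) (hd : ∀ s, ρ s < Fintype.card S) :
    S ≃ Fin (Fintype.card S) :=
  Equiv.ofBijective (fun s => (⟨ρ s, hd s⟩ : Fin (Fintype.card S))) (by
    rw [Fintype.bijective_iff_injective_and_card]
    refine ⟨fun a b hab => hi (by simpa using hab), by simp⟩)

lemma Sm_of_enum {S : Type*} [Fintype S] [DecidableEq S] (F : ℕ → ℕ → ℤ) (ρ κ : S → ℕ)
    (hρ : Function.Injective ρ) (hρd : ∀ s, ρ s < Fintype.card S)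
    (hκ : Function.Injective κ) (hκd : ∀ s, κ s < Fintype.card S)
    (h : Sm (Matrix.of fun i j : Fin (Fintype.card S) => F i j).det) :
    Sm (Matrix.of fun s s' : S => F (ρ s) (κ s')).det :=
  Sm_submatrix _ (enumEquiv ρ hρ hρd) (enumEquiv κ hκ hκd) h

lemma exists_perm {m : Type*} [Fintype m] [DecidableEq m] (A : Matrix m m ℤ) (h : A.det ≠ 0) :
    ∃ σ : Equiv.Perm m, ∀ j, A (σ j) j ≠ 0 := by
  by_contra hcon
  push Not at hcon
  apply h
  rw [Matrix.det_apply]
  apply Finset.sum_eq_zero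
  intro σ _
  obtain ⟨j, hj⟩ := hcon σ
  have h0 : ∏ i, A (σ i) i = 0 := Finset.prod_eq_zero (Finset.mem_univ j) hj
  rw [h0, smul_zero]

lemma Sm_of_blocks {m : Type*} [Fintype m] [DecidableEq m] (A : Matrix m m ℤ)
    (H : ∀ σ : Equiv.Perm m, (∀ j, A (σ j) j ≠ 0) → ∃ b : m → ℕ,
      BlockTriangular (A.submatrix σ id) b ∧
        ∀ a, Sm ((A.submatrix σ id).toSquareBlock b a).det) : Sm A.det := by
  by_cases h0 : A.det = 0
  · exact Or.inl h0
  obtain ⟨σ, hσ⟩ := exists_perm A h0
  obtain ⟨b, hb, hS⟩ := H σ hσ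
  have h1 := Matrix.det_permute σ A
  have h2 : Sm (A.submatrix σ id).det := by
    rw [hb.det]
    exact Sm_prod _ _ fun a _ => hS a
  rw [h1] at h2
  exact Sm_of_unit_mul (unit_cases _) h2

/-- The bordered Hankel matrix. -/
def bmat (n : ℕ) (p e δ : ℤ) (v : ℤ → ℤ) : Matrix (Fin (n + 1)) (Fin (n + 1)) ℤ :=
  Matrix.of fun i j => if (j : ℕ) = n then e * δ ^ (i : ℕ) else v (p + (i : ℕ) + (j : ℕ))

/-- The Hankel matrix. -/
def hmat (n : ℕ) (p : ℤ) (v : ℤ → ℤ) : Matrix (Fin n) (Fin n) ℤ :=
  Matrix.of fun i j => v (p + (i : ℕ) + (j : ℕ))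

lemma border (n : ℕ) (p e ε : ℤ) (v : ℤ → ℤ) (he : e = 1 ∨ e = -1) (hε : ε = 1 ∨ ε = -1) :
    ∃ s : ℤ, (s = 1 ∨ s = -1) ∧
      (hmat n p (fun N => v (N + 1) + ε * v N)).det = s * (bmat n p e (-ε) v).det := by
  classical
  let d : Fin (n + 1) → ℤ := fun i => if (i : ℕ) = n then 1 else ε
  let T : Matrix (Fin (n + 1)) (Fin (n + 1)) ℤ :=
    Matrix.of fun i k => (if k = i then d i else 0) + (if (k : ℕ) = (i : ℕ) + 1 then 1 else 0)
  have hT : T.det = 1 ∨ T.det = -1 := by
    have hup : T.BlockTriangular id := by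
      intro i j hij
      simp only [id] at hij
      have h1 : j ≠ i := ne_of_lt hij
      have h2 : (j : ℕ) ≠ (i : ℕ) + 1 := by
        have : (j : ℕ) < (i : ℕ) := hij
        omega
      simp [T, h1, h2]
    rw [Matrix.det_of_isUpperTriangular hup]
    refine Finset.prod_induction _ (fun x : ℤ => x = 1 ∨ x = -1) ?_ (Or.inl rfl) ?_
    · rintro a b (rfl | rfl) (rfl | rfl) <;> simp
    · intro i _
      have : T i i = d i := by simp [T]
      rw [this]
      simp only [d]
      split_ifs
      · exact Or.inl rfl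
      · exact hε
  set B := bmat n p e (-ε) v with hB
  have hmul : ∀ i j, (T * B) i j = d i * B i j +
      (if h : (i : ℕ) < n then B ⟨(i : ℕ) + 1, by omega⟩ j else 0) := by
    intro i j
    rw [Matrix.mul_apply]
    simp only [T, Matrix.of_apply, add_mul, Finset.sum_add_distrib]
    congr 1
    · simp
    · split_ifs with h
      · rw [Finset.sum_eq_single (⟨(i : ℕ) + 1, by omega⟩ : Fin (n + 1))]
        · simp
        · intro b _ hb
          have : (b : ℕ) ≠ (i : ℕ) + 1 := fun hh => hb (Fin.ext hh)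
          simp [this]
        · simp
      · apply Finset.sum_eq_zero
        intro b _
        have : (b : ℕ) ≠ (i : ℕ) + 1 := by have := b.2; omega
        simp [this]
  have hlast : ∀ i : Fin (n + 1), i ≠ Fin.last n → (T * B) i (Fin.last n) = 0 := by
    intro i hi
    have hin : (i : ℕ) < n := by
      have := Fin.val_lt_last hi
      exact this
    rw [hmul, dif_pos hin]
    simp only [d, hB, bmat, Matrix.of_apply, Fin.val_last, if_true]
    rw [if_neg (by omega), pow_succ]
    ring
  have hdet : (T * B).det = (e * (-ε) ^ n) * (hmat n p (fun N => v (N + 1) + ε * v N)).det := by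
    rw [Matrix.det_succ_column _ (Fin.last n), Finset.sum_eq_single (Fin.last n)]
    · have h1 : (T * B) (Fin.last n) (Fin.last n) = e * (-ε) ^ n := by
        rw [hmul]
        simp [d, hB, bmat]
      rw [h1]
      have h2 : ((T * B).submatrix (Fin.last n).succAbove (Fin.last n).succAbove) =
          hmat n p (fun N => v (N + 1) + ε * v N) := by
        ext i j
        rw [Matrix.submatrix_apply, Fin.succAbove_last, hmul]
        have hi : ((Fin.castSucc i : Fin (n + 1)) : ℕ) < n := by simp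
        rw [dif_pos hi]
        simp only [d, hB, bmat, hmat, Matrix.of_apply, Fin.val_castSucc]
        rw [if_neg (by omega), if_neg (by omega), if_neg (by omega)]
        push_cast
        rw [add_comm]
        congr 2
        ring
      rw [h2]
      have : ((-1 : ℤ)) ^ (((Fin.last n : Fin (n + 1)) : ℕ) + ((Fin.last n : Fin (n + 1)) : ℕ)) = 1 := by
        rw [← two_mul, pow_mul]; norm_num
      rw [this]; ring
    · intro b _ hb
      rw [hlast b hb]; ring
    · simp
  rw [Matrix.det_mul] at hdet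
  have hz : e * (-ε) ^ n = 1 ∨ e * (-ε) ^ n = -1 := by
    have h1 : (-ε) ^ n = 1 ∨ (-ε) ^ n = -1 := by
      rcases hε with rfl | rfl
      · exact neg_one_pow_eq_or ℤ n
      · left; simp
    rcases he with rfl | rfl <;> rcases h1 with h | h <;> rw [h] <;> simp
  refine ⟨(e * (-ε) ^ n) * T.det, ?_, ?_⟩
  · rcases hz with h | h <;> rcases hT with h' | h' <;> rw [h, h'] <;> simp
  · rw [mul_assoc, hdet, ← mul_assoc]
    rcases hz with h | h <;> rw [h] <;> ring

end Pool.Agent.H140.HK
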