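import Pool.Agent.H140.HK.Block

namespace Pool.Agent.H140.HK

open Matrix Finset

lemma hmat_diff (n : ℕ) (hn : 2 ≤ n) (p : ℤ)
    (H : ∀ k, k < n → ∀ p' e' : ℤ, (e' = 1 ∨ e' = -1) →
      Sm (hmat k p' w).det ∧ Sm (bmat k p' e' 1 w).det) :
    Sm (hmat n p (fun N => w (N + 1) + (-1) * w N)).det := by
  classical
  apply Sm_of_blocks
  intro σ hσ
  set A := hmat n p (fun N => w (N + 1) + (-1) * w N) with hA
  have hAij : ∀ i j : Fin n, A i j = w (p + (i : ℕ) + (j : ℕ) + 1) - w (p + (i : ℕ) + (j : ℕ)) := by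
    intro i j
    rw [hA]
    simp only [hmat, Matrix.of_apply]
    ring
  have hodd : ∀ i j : Fin n, A i j ≠ 0 → (2 : ℤ) ∣ p + (i : ℕ) + (j : ℕ) + 1 := by
    intro i j h
    by_contra hn
    apply h
    rw [hAij]
    obtain ⟨M, hM⟩ : ∃ M : ℤ, p + (i : ℕ) + (j : ℕ) = 2 * M := ⟨(p + (i : ℕ) + (j : ℕ)) / 2, by omega⟩
    rw [hM]
    exact diff_even M
  let b : Fin n → ℕ := fun j => (σ j : ℕ) % 2
  have hblock : ∀ i j, A (σ i) j ≠ 0 → b i = b j := by
    intro i j h
    have d1 := hodd _ _ h
    have d2 := hodd _ _ (hσ j)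
    simp only [b]
    omega
  refine ⟨b, ?_, ?_⟩
  · intro i j hij
    rw [Matrix.submatrix_apply, id]
    by_contra hne
    have := hblock i j hne
    omega
  · intro a
    set S := {j : Fin n // b j = a} with hS
    have hSn : ∀ s : S, (σ s.1 : ℕ) % 2 = a := fun s => s.2
    set J : ℕ := ((1 - p - a) % 2).toNat with hJ
    set M0 : ℤ := (p + a + J + 1) / 2 with hM0
    have hM : p + a + J + 1 = 2 * M0 := by omega
    have hJq : J < 2 := by omega
    have hsJ : ∀ s : S, (s.1 : ℕ) % 2 = J := by
      intro s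
      have d := hodd _ _ (hσ s.1)
      have := hSn s
      omega
    let ρ : S → ℕ := fun s => (σ s.1 : ℕ) / 2
    let κ : S → ℕ := fun s => (s.1 : ℕ) / 2
    have hρi : Function.Injective ρ := by
      intro s s' h
      have h1 : (σ s.1 : ℕ) = σ s'.1 := div_inj h (by rw [hSn s, hSn s'])
      exact Subtype.ext (σ.injective (Fin.ext h1))
    have hρd : ∀ s, ∀ t < ρ s, ∃ s', ρ s' = t := by
      intro s t ht
      have h0 := hSn s
      have h1 : 2 * t + a < σ s.1 := by
        simp only [ρ] at ht
        omega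
      let i : Fin n := ⟨2 * t + a, lt_trans h1 (σ s.1).2⟩
      have h3 : b (σ.symm i) = a := by
        simp only [b, Equiv.apply_symm_apply, i]
        omega
      refine ⟨⟨σ.symm i, h3⟩, ?_⟩
      simp only [ρ, Equiv.apply_symm_apply, i]
      omega
    have hρlt := enum_lt ρ hρi hρd
    have hκi : Function.Injective κ := by
      intro s s' h
      exact Subtype.ext (Fin.ext (div_inj h (by rw [hsJ s, hsJ s'])))
    have hκd : ∀ s, ∀ t < κ s, ∃ s', κ s' = t := by
      intro s t ht
      have h0 := hSn s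
      have h0' := hsJ s
      have h1 : 2 * t + J < s.1 := by
        simp only [κ] at ht
        omega
      let j : Fin n := ⟨2 * t + J, lt_trans h1 s.1.2⟩
      have d := hodd _ _ (hσ j)
      have h3 : b j = a := by
        simp only [b]
        have h4 : ((j : ℕ) : ℤ) = 2 * t + J := by simp only [j]; push_cast; ring
        omega
      refine ⟨⟨j, h3⟩, ?_⟩
      simp only [κ, j]
      omega
    have hκlt := enum_lt κ hκi hκd
    have hmain : (A.submatrix σ id).toSquareBlock b a =
        Matrix.of fun s s' : S => (fun t' t : ℕ =>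
          vq 2 (M0 - 1 + t' + t + 1) + (-1) * vq 2 (M0 - 1 + t' + t)) (ρ s) (κ s') := by
      ext s s'
      rw [Matrix.toSquareBlock_def, Matrix.of_apply, Matrix.of_apply, Matrix.submatrix_apply, id,
        hAij]
      have h4 : p + ((σ s.1 : ℕ) : ℤ) + ((s'.1 : ℕ) : ℤ) + 1 = 2 * (M0 + ρ s + κ s') := by
        have h1 := hSn s
        have h2 := hsJ s'
        simp only [ρ, κ]
        push_cast
        omega
      have h5 : p + ((σ s.1 : ℕ) : ℤ) + ((s'.1 : ℕ) : ℤ) = 2 * (M0 + ρ s + κ s') - 1 := by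
        linarith
      rw [h4, h5, diff_odd]
      have e1 : M0 - 1 + (ρ s : ℤ) + κ s' + 1 = M0 + ρ s + κ s' := by ring
      have e2 : M0 - 1 + (ρ s : ℤ) + κ s' = M0 + ρ s + κ s' - 1 := by ring
      simp only [e1]
      rw [e2]
      ring
    rw [hmain]
    refine Sm_of_enum (fun t' t : ℕ =>
          vq 2 (M0 - 1 + t' + t + 1) + (-1) * vq 2 (M0 - 1 + t' + t)) ρ κ hρi hρlt hκi hκlt ?_
    have hK : 2 * Fintype.card S ≤ n + 1 := by
      apply card_bound κ hκi 2 ((n + 1) / 2) _ _ (Nat.mul_div_le _ _)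
      intro s
      have := s.1.2
      simp only [κ]
      omega
    obtain ⟨s, hs, hdet⟩ := border (Fintype.card S) (M0 - 1) 1 (-1) (vq 2) (Or.inl rfl) (Or.inr rfl)
    have hSm : Sm (bmat (Fintype.card S) (M0 - 1) 1 (-(-1)) (vq 2)).det := by
      have e : (vq 2) = (vq ((2 : ℕ) : ℤ)) := by norm_num
      rw [e]
      apply bmat_q 2 (by norm_num) (by decide) _ _ _ _ (Or.inl rfl) (by norm_num)
      intro k hk p' e' he'
      exact H k (by omega) p' e' he'
    have := Sm_unit_mul hs hSm
    rw [← hdet] at this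
    exact this

theorem main (n : ℕ) : ∀ p' e' : ℤ, (e' = 1 ∨ e' = -1) →
      Sm (hmat n p' w).det ∧ Sm (bmat n p' e' 1 w).det := by
  induction n using Nat.strong_induction_on with
  | _ n ih =>
    intro p e he
    rcases Nat.lt_or_ge n 2 with hn | hn
    · interval_cases n
      · refine ⟨?_, ?_⟩
        · simp [hmat, Sm]
        · have : (bmat 0 p e 1 w).det = e := by
            simp [bmat, Matrix.det_unique]
          rw [this]
          rcases he with rfl | rfl <;> simp [Sm]
      · refine ⟨?_, ?_⟩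
        · have : (hmat 1 p w).det = w p := by
            simp [hmat, Matrix.det_unique]
          rw [this]
          rcases w_cases p with h | h <;> rw [h] <;> simp [Sm]
        · have : (bmat 1 p e 1 w).det = w p * e - e * w (p + 1) := by
            rw [Matrix.det_fin_two]
            simp [bmat]
          rw [this]
          rcases w_cases p with h | h <;> rcases w_cases (p + 1) with h' | h' <;>
            rcases he with rfl | rfl <;> rw [h, h'] <;> simp [Sm]
    · refine ⟨?_, ?_⟩
      · have e1 : hmat n p w = hmat n (p - 1) (fun N => vq 4 (N + 1) + 1 * vq 4 N) := by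
          ext i j
          simp only [hmat, Matrix.of_apply]
          rw [w_eq, one_mul]
          congr 2 <;> ring
        obtain ⟨s, hs, hdet⟩ := border n (p - 1) 1 1 (vq 4) (Or.inl rfl) (Or.inl rfl)
        rw [e1, hdet]
        apply Sm_unit_mul hs
        have e : (vq 4) = (vq ((4 : ℕ) : ℤ)) := by norm_num
        rw [e]
        apply bmat_q 4 (by norm_num) (by decide) _ _ _ _ (Or.inl rfl) (Or.inr rfl)
        intro k hk p' e' he'
        exact ih k (by omega) p' e' he'
      · obtain ⟨s, hs, hdet⟩ := border n p e (-1) w he (Or.inr rfl)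
        have h1 := hmat_diff n hn p ih
        rw [hdet] at h1
        have h2 := Sm_of_unit_mul hs h1
        simpa using h2

/-- All Hankel determinants of `u(N) + u(N+1)`, `u = vq 2`, are `-1`, `0` or `1`. -/
theorem target (n : ℕ) (p : ℤ) : Sm (hmat n p (fun N => vq 2 (N + 1) + 1 * vq 2 N)).det := by
  obtain ⟨s, hs, hdet⟩ := border n p 1 1 (vq 2) (Or.inl rfl) (Or.inl rfl)
  rw [hdet]
  apply Sm_unit_mul hs
  have e : (vq 2) = (vq ((2 : ℕ) : ℤ)) := by norm_num
  rw [e]
  apply bmat_q 2 (by norm_num) (by decide) _ _ _ _ (Or.inl rfl) (Or.inr rfl)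
  intro k _ p' e' he'
  exact main k p' e' he'

end Pool.Agent.H140.HK
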