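import Pool.Agent.H140.HK.Det

namespace Pool.Agent.H140.HK

open Matrix Finset

/-- `1` if all base-`4` digits of `n` are `0` or `1`, else `0`. -/
def wn : ℕ → ℤ
  | 0 => 1
  | n + 1 => if (n + 1) % 4 ≤ 1 then wn ((n + 1) / 4) else 0
  decreasing_by exact Nat.div_lt_self (by omega) (by omega)

lemma wn_eq (n : ℕ) : wn n = if n % 4 ≤ 1 then wn (n / 4) else 0 := by
  cases n with
  | zero => simp [wn]
  | succ n => rw [wn]

/-- Extension of `wn` to the integers by zero. -/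
def w (N : ℤ) : ℤ := if N < 0 then 0 else wn N.toNat

lemma wn_cases (n : ℕ) : wn n = 0 ∨ wn n = 1 := by
  induction n using Nat.strong_induction_on with
  | _ n ih =>
    rcases Nat.eq_zero_or_pos n with rfl | hn
    · right; simp [wn]
    · rw [wn_eq]
      split_ifs
      · exact ih _ (Nat.div_lt_self hn (by norm_num))
      · left; rfl

lemma w_cases (N : ℤ) : w N = 0 ∨ w N = 1 := by
  unfold w
  split_ifs
  · left; rfl
  · exact wn_cases _

lemma w_mod (M : ℤ) (r : ℕ) (hr : r < 4) : w (4 * M + r) = if r ≤ 1 then w M else 0 := by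
  unfold w
  by_cases hM : M < 0
  · have h1 : 4 * M + r < 0 := by omega
    simp [h1, hM]
  · have h1 : ¬ (4 * M + (r : ℤ) < 0) := by omega
    rw [if_neg h1, if_neg hM, wn_eq]
    have e1 : (4 * M + (r : ℤ)).toNat = 4 * M.toNat + r := by omega
    rw [e1]
    have e2 : (4 * M.toNat + r) % 4 = r := by omega
    have e3 : (4 * M.toNat + r) / 4 = M.toNat := by omega
    rw [e2, e3]

/-- The sequence `w` spread out by the factor `q`. -/
def vq (q : ℤ) (N : ℤ) : ℤ := if q ∣ N then w (N / q) else 0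

lemma vq_mul (q : ℤ) (hq : q ≠ 0) (M : ℤ) : vq q (q * M) = w M := by
  unfold vq
  rw [if_pos (dvd_mul_right q M), Int.mul_ediv_cancel_left _ hq]

lemma w_eq (N : ℤ) : w N = vq 4 N + vq 4 (N - 1) := by
  obtain ⟨M, r, hr, rfl⟩ : ∃ M : ℤ, ∃ r : ℕ, r < 4 ∧ N = 4 * M + r :=
    ⟨N / 4, (N % 4).toNat, by omega, by omega⟩
  rw [w_mod M r hr]
  unfold vq
  interval_cases r
  · have h1 : (4 : ℤ) ∣ 4 * M + (0 : ℕ) := ⟨M, by push_cast; ring⟩
    have h2 : ¬ (4 : ℤ) ∣ 4 * M + (0 : ℕ) - 1 := by omega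
    rw [if_pos h1, if_neg h2]
    have : (4 * M + ((0 : ℕ) : ℤ)) / 4 = M := by omega
    rw [this]; simp
  · have h1 : ¬ (4 : ℤ) ∣ 4 * M + (1 : ℕ) := by omega
    have h2 : (4 : ℤ) ∣ 4 * M + (1 : ℕ) - 1 := by omega
    rw [if_neg h1, if_pos h2]
    have : (4 * M + ((1 : ℕ) : ℤ) - 1) / 4 = M := by omega
    rw [this]; simp
  · have h1 : ¬ (4 : ℤ) ∣ 4 * M + (2 : ℕ) := by omega
    have h2 : ¬ (4 : ℤ) ∣ 4 * M + (2 : ℕ) - 1 := by omega
    rw [if_neg h1, if_neg h2]; simp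
  · have h1 : ¬ (4 : ℤ) ∣ 4 * M + (3 : ℕ) := by omega
    have h2 : ¬ (4 : ℤ) ∣ 4 * M + (3 : ℕ) - 1 := by omega
    rw [if_neg h1, if_neg h2]; simp

/-- The difference sequence vanishes at even places and is a difference of `vq 2` at odd ones. -/
lemma diff_even (M : ℤ) : w (2 * M + 1) - w (2 * M) = 0 := by
  rw [w_eq (2 * M + 1), w_eq (2 * M)]
  have h1 : ¬ (4 : ℤ) ∣ 2 * M + 1 := by omega
  have h2 : ¬ (4 : ℤ) ∣ 2 * M - 1 := by omega
  have e : 2 * M + 1 - 1 = 2 * M := by ring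
  rw [e]
  have h3 : vq 4 (2 * M + 1) = 0 := by unfold vq; rw [if_neg h1]
  have h4 : vq 4 (2 * M - 1) = 0 := by unfold vq; rw [if_neg h2]
  rw [h3, h4]; ring

lemma vq_four_two (M : ℤ) : vq 4 (2 * M) = vq 2 M := by
  unfold vq
  by_cases h : (2 : ℤ) ∣ M
  · have h4 : (4 : ℤ) ∣ 2 * M := by omega
    rw [if_pos h, if_pos h4]
    congr 1
    omega
  · have h4 : ¬ (4 : ℤ) ∣ 2 * M := by omega
    rw [if_neg h, if_neg h4]

lemma diff_odd (M : ℤ) : w (2 * M) - w (2 * M - 1) = vq 2 M - vq 2 (M - 1) := by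
  rw [w_eq (2 * M), w_eq (2 * M - 1)]
  have e : 2 * M - 1 - 1 = 2 * (M - 1) := by ring
  rw [e, vq_four_two, vq_four_two]
  ring

end Pool.Agent.H140.HK
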